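import Mathlib
import Pool.Agent.Y245.SG.Stm

/-!
Finite Fourier–Bessel sums `∑ (a_m z^m + b_m ζ^m) B_m(κ z ζ)` and their derivatives.
-/

set_option autoImplicit false

open Complex Polynomial

namespace Pool.Agent.Helper327_Sch

/-- the recurrence of the Bessel–Clifford functions at the point `w` -/
def Rec (w : ℂ) (f : ℕ → ℂ) : Prop := ∀ m : ℕ, w * f (m + 2) = ((m : ℂ) + 1) * f (m + 1) - f m

/-- `w ^ m f_m = A_m(w) f_0 + B_m(w) f_1`: the polynomials `A_m` -/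
noncomputable def pA : ℕ → ℂ[X]
  | 0 => 1
  | 1 => 0
  | (m + 2) => C ((m : ℂ) + 1) * pA (m + 1) - X * pA m

/-- the polynomials `B_m` -/
noncomputable def pB : ℕ → ℂ[X]
  | 0 => 0
  | 1 => X
  | (m + 2) => C ((m : ℂ) + 1) * pB (m + 1) - X * pB m

/-- the functions `f_m` attached to a solution `(x, y)` of the system -/
noncomputable def fam (x y : ℂ → ℂ) : ℕ → ℂ → ℂ
  | 0, ω => x ω
  | 1, ω => y ω
  | (m + 2), ω => exp (-ω) * (((m : ℂ) + 1) * fam x y (m + 1) ω - fam x y m ω)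

/-- the finite sum `e f_0 + ∑ (a_m z^(m+1) + b_m ζ^(m+1)) f_(m+1)` -/
noncomputable def F (e : ℂ) (a b : ℕ → ℂ) (M : ℕ) (f : ℕ → ℂ) (z ζ : ℂ) : ℂ :=
  e * f 0 + ∑ m ∈ Finset.range M, (a m * z ^ (m + 1) + b m * ζ ^ (m + 1)) * f (m + 1)

/-- its derivative with respect to `z` (swap `a, b` and `z, ζ` for the derivative in `ζ`) -/
noncomputable def F1 (κ e : ℂ) (a b : ℕ → ℂ) (M : ℕ) (f : ℕ → ℂ) (z ζ : ℂ) : ℂ :=
  ∑ m ∈ Finset.range M, (a m * z ^ m * f m - κ * b m * ζ ^ (m + 2) * f (m + 2)) -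
    κ * e * ζ * f 1

section generic

variable {R : Type*} [CommRing R] [Algebra ℂ R]

/-- `w = κ z ζ` -/
noncomputable def ww (κ : ℂ) (z ζ : R) : R := algebraMap ℂ R κ * (z * ζ)

/-- `w ^ M F = N0 pA f_0 + N0 pB f_1` -/
noncomputable def N0 (κ e : ℂ) (a b : ℕ → ℂ) (M : ℕ) (A : ℕ → ℂ[X]) (z ζ : R) : R :=
  algebraMap ℂ R e * ww κ z ζ ^ M * aeval (ww κ z ζ) (A 0) +
    ∑ m ∈ Finset.range M, (algebraMap ℂ R (a m) * z ^ (m + 1) + algebraMap ℂ R (b m) * ζ ^ (m + 1)) *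
      ww κ z ζ ^ (M - 1 - m) * aeval (ww κ z ζ) (A (m + 1))

/-- `w ^ (M + 1) F1 = N1 pA f_0 + N1 pB f_1` -/
noncomputable def N1 (κ e : ℂ) (a b : ℕ → ℂ) (M : ℕ) (A : ℕ → ℂ[X]) (z ζ : R) : R :=
  ∑ m ∈ Finset.range M,
    (algebraMap ℂ R (a m) * z ^ m * ww κ z ζ ^ (M + 1 - m) * aeval (ww κ z ζ) (A m) -
      algebraMap ℂ R (κ * b m) * ζ ^ (m + 2) * ww κ z ζ ^ (M - 1 - m) *
        aeval (ww κ z ζ) (A (m + 2))) -
    algebraMap ℂ R (κ * e) * ζ * ww κ z ζ ^ M * aeval (ww κ z ζ) (A 1)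

/-- the determinant of the two derivatives -/
noncomputable def DD (κ e : ℂ) (a b : ℕ → ℂ) (M : ℕ) (z ζ : R) : R :=
  N1 κ e a b M pA z ζ * N1 κ e b a M pB ζ z - N1 κ e b a M pA ζ z * N1 κ e a b M pB z ζ

end generic

end Pool.Agent.Helper327_Sch
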