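import Pool.Agent.Helper327_Sch.Defs

set_option autoImplicit false

open Complex

open scoped ComplexConjugate

namespace Pool.Agent.Helper327_Sch

open Pool.Agent.Y245.SG (Bn Sys)

/-- the real function -/
noncomputable def UU (κ e : ℝ) (a : ℕ → ℂ) (M : ℕ) (z : ℂ) : ℝ :=
  (F e a (fun m => conj (a m)) M (fun m => Bn m ((κ * normSq z : ℝ) : ℂ)) z (conj z)).re

/-- The Bessel function `J_N`. -/
noncomputable def J (N : ℕ) (t : ℝ) : ℝ :=
  ∑' k : ℕ, (-1) ^ k / ((k.factorial : ℝ) * ((k + N).factorial : ℝ)) * (t / 2) ^ (2 * k + N)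

end Pool.Agent.Helper327_Sch
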