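import Mathlib

/-! Finite sums of plane waves: exponential sums in two complex variables. -/

set_option autoImplicit false

open Complex Filter Topology
open scoped ComplexConjugate

namespace Pool.Agent.Helper327_Sch.PW

variable {ι : Type} [Fintype ι]

/-- a plane wave in the characteristic coordinates `z`, `w` (`w = conj z` on the real plane) -/
noncomputable def E (a z w : ℂ) : ℂ := Complex.exp (I * (conj a * z + a * w))

/-- the sum -/
noncomputable def U (d c : ι → ℂ) (z w : ℂ) : ℂ := ∑ i, c i * E (d i) z w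

/-- its derivative in `z` -/
noncomputable def Uz (d c : ι → ℂ) (z w : ℂ) : ℂ := ∑ i, c i * (I * conj (d i)) * E (d i) z w

/-- its derivative in `w` -/
noncomputable def Uw (d c : ι → ℂ) (z w : ℂ) : ℂ := ∑ i, c i * (I * d i) * E (d i) z w

/-- the critical points of value `h` -/
def CP (d c : ι → ℂ) (h : ℂ) : Set (ℂ × ℂ) :=
  {p | U d c p.1 p.2 = h ∧ Uz d c p.1 p.2 = 0 ∧ Uw d c p.1 p.2 = 0}

/-- the critical points of value `h` that are accumulation points of such points -/
def NI (d c : ι → ℂ) (h : ℂ) : Set (ℂ × ℂ) := {p | p ∈ CP d c h ∧ AccPt p (𝓟 (CP d c h))}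

/-- a finite sum of real plane waves -/
noncomputable def waves (lam : ℝ) (N : ℕ) (d : Fin N → ℂ) (a b : Fin N → ℝ) (x : ℂ) : ℝ :=
  ∑ j, (a j * Real.cos (Real.sqrt lam * (conj (d j) * x).re) +
    b j * Real.sin (Real.sqrt lam * (conj (d j) * x).re))

end Pool.Agent.Helper327_Sch.PW
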