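import Mathlib

/-! Entire solutions of the Helmholtz equation whose translates span a finite-dimensional space. -/

set_option autoImplicit false

open Complex Filter Topology
open scoped ComplexConjugate

namespace Pool.Agent.Helper327_Sch.TF

/-- entire solutions of `U_zw = -U` on `ℂ²`, with their first derivatives `Uz`, `Uw` -/
structure HP (U Uz Uw : ℂ → ℂ → ℂ) : Prop where
  dU : Differentiable ℂ (fun p : ℂ × ℂ => U p.1 p.2)
  dUz : Differentiable ℂ (fun p : ℂ × ℂ => Uz p.1 p.2)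
  dUw : Differentiable ℂ (fun p : ℂ × ℂ => Uw p.1 p.2)
  z1 : ∀ z w, HasDerivAt (fun ζ => U ζ w) (Uz z w) z
  w1 : ∀ z w, HasDerivAt (fun v => U z v) (Uw z w) w
  zw : ∀ z w, HasDerivAt (fun v => Uz z v) (-U z w) w
  wz : ∀ z w, HasDerivAt (fun ζ => Uw ζ w) (-U z w) z

/-- the critical points of value `h` -/
def CP (U Uz Uw : ℂ → ℂ → ℂ) (h : ℂ) : Set (ℂ × ℂ) :=
  {p | U p.1 p.2 = h ∧ Uz p.1 p.2 = 0 ∧ Uw p.1 p.2 = 0}

/-- the critical points of value `h` that are accumulation points of such points -/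
def NI (U Uz Uw : ℂ → ℂ → ℂ) (h : ℂ) : Set (ℂ × ℂ) :=
  {p | p ∈ CP U Uz Uw h ∧ AccPt p (𝓟 (CP U Uz Uw h))}

/-- the finite-dimensional space -/
abbrev V (n : ℕ) : Type := Fin n → ℂ

/-- the action of the translations -/
noncomputable def T {n : ℕ} (A B : V n →L[ℂ] V n) (z w : ℂ) : V n →L[ℂ] V n :=
  NormedSpace.exp (z • A) * NormedSpace.exp (w • B)

/-- the function belonging to the vector `y`, and its derivatives -/
noncomputable def fU {n : ℕ} (A B : V n →L[ℂ] V n) (ε : V n →L[ℂ] ℂ) (y : V n) (z w : ℂ) : ℂ :=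
  ε (T A B z w y)

noncomputable def fUz {n : ℕ} (A B : V n →L[ℂ] V n) (ε : V n →L[ℂ] ℂ) (y : V n) (z w : ℂ) : ℂ :=
  ε (A (T A B z w y))

noncomputable def fUw {n : ℕ} (A B : V n →L[ℂ] V n) (ε : V n →L[ℂ] ℂ) (y : V n) (z w : ℂ) : ℂ :=
  ε (B (T A B z w y))

noncomputable def fUzz {n : ℕ} (A B : V n →L[ℂ] V n) (ε : V n →L[ℂ] ℂ) (y : V n) (z w : ℂ) : ℂ :=
  ε (A (A (T A B z w y)))

/-- observability: different vectors give different functions -/
def Obs {n : ℕ} (A B : V n →L[ℂ] V n) (ε : V n →L[ℂ] ℂ) : Prop :=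
  ∀ y : V n, (∀ z w, fU A B ε y z w = 0) → y = 0

/-- the Laplacian of a function on the plane -/
noncomputable def lap (F : ℂ → ℝ) (x : ℂ) : ℝ :=
  fderiv ℝ (fun y => fderiv ℝ F y 1) x 1 + fderiv ℝ (fun y => fderiv ℝ F y Complex.I) x Complex.I

/-- the translates of `F` span a finite-dimensional space -/
def TransFin (F : ℂ → ℝ) : Prop :=
  FiniteDimensional ℝ (Submodule.span ℝ (Set.range fun p : ℂ => fun x : ℂ => F (x + p)))

end Pool.Agent.Helper327_Sch.TF
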